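import Pool.Agent.Helper56.TOF.Goals
import Pool.Agent.Helper57.RZ.T1

/-!
# Project TOF (MP_f32c9c_an), packet SM1: `th` is small in `C^1` on `M` (helper25)
-/

set_option autoImplicit false

open Set Filter Topology MeasureTheory

open scoped ContDiff

namespace Pool.Agent.Helper25.TOF

open Pool.Agent.Helper56.RZ Pool.Agent.Helper30.CIR Pool.Agent.Helper56.TOF

/-- smallness of `cq` for large `q` -/
theorem cq_small (r : ℕ) (hr : 1 ≤ r) (z0 : ℝ) (hz0 : 0 < z0) :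
    ∃ q1 : ℕ, ∀ q : ℕ, q1 ≤ q → 1 ≤ q ∧ cq q r < z0 := by
  obtain ⟨n, hn⟩ := exists_nat_gt (1 / z0)
  refine ⟨max 1 n, fun q hq => ?_⟩
  have hq1 : 1 ≤ q := (le_max_left _ _).trans hq
  have hqn : n ≤ q := (le_max_right _ _).trans hq
  refine ⟨hq1, ?_⟩
  have hq1r : (1 : ℝ) ≤ q := by exact_mod_cast hq1
  have hqnr : (n : ℝ) ≤ q := by exact_mod_cast hqn
  have h1 : (q : ℝ) ≤ (q : ℝ) ^ r := le_self_pow₀ hq1r (by omega)
  have h2 : 1 / z0 < (q : ℝ) ^ r := by linarith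
  rw [cq, inv_lt_comm₀ (by linarith) hz0, ← one_div]
  exact h2

/-- the norm of the projection -/
theorem norm_Pi_le {K : ℕ} (M : Set (E K)) (x : E K) : ‖Pi M x‖ ≤ 1 :=
  Submodule.starProjection_norm_le _

/-- the local estimate in one chart -/
theorem local_bound {N K : ℕ} {M : Set (E K)} (c : Chart N K M) (T : E K → ℝ) (z : E N)
    (hz : z ∈ c.V) (C ε : ℝ) (hC : ‖fderiv ℝ c.φ (c.ψ z)‖ ≤ C) (hε : 0 ≤ ε)
    (hT : DifferentiableWithinAt ℝ T M (c.ψ z))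
    (h1 : ‖iteratedFDeriv ℝ 1 (fun z => T (c.ψ z)) z‖ ≤ ε) :
    ‖(fderivWithin ℝ T M (c.ψ z)) ∘L (Pi M (c.ψ z))‖ ≤ ε * C := by
  obtain ⟨-, -, h3⟩ := Pool.Agent.Helper57.RZ.t1 N K M c z hz
  have hVn : c.V ∈ 𝓝 z := c.openV.mem_nhds hz
  have hψ : HasFDerivAt c.ψ (fderiv ℝ c.ψ z) z :=
    ((c.smoothψ.contDiffAt hVn).differentiableAt (by simp)).hasFDerivAt
  have h4 : HasFDerivWithinAt (T ∘ c.ψ) ((fderivWithin ℝ T M (c.ψ z)) ∘L (fderiv ℝ c.ψ z)) c.V z :=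
    hT.hasFDerivWithinAt.comp z hψ.hasFDerivWithinAt (fun y hy => (c.mapsψ y hy).1)
  have h5 : HasFDerivAt (T ∘ c.ψ) ((fderivWithin ℝ T M (c.ψ z)) ∘L (fderiv ℝ c.ψ z)) z :=
    h4.hasFDerivAt hVn
  have h6 : fderiv ℝ (fun z => T (c.ψ z)) z =
      (fderivWithin ℝ T M (c.ψ z)) ∘L (fderiv ℝ c.ψ z) := h5.fderiv
  rw [norm_iteratedFDeriv_one, h6] at h1
  have h7 : (fderivWithin ℝ T M (c.ψ z)) ∘L (Pi M (c.ψ z)) =
      ((fderivWithin ℝ T M (c.ψ z)) ∘L (fderiv ℝ c.ψ z)) ∘L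
        ((fderiv ℝ c.φ (c.ψ z)) ∘L (Pi M (c.ψ z))) := by
    conv_lhs => rw [← h3]
    rfl
  rw [h7]
  refine (ContinuousLinearMap.opNorm_comp_le _ _).trans ?_
  have h8 : ‖(fderiv ℝ c.φ (c.ψ z)) ∘L (Pi M (c.ψ z))‖ ≤ C := by
    refine (ContinuousLinearMap.opNorm_comp_le _ _).trans ?_
    calc ‖fderiv ℝ c.φ (c.ψ z)‖ * ‖Pi M (c.ψ z)‖ ≤ ‖fderiv ℝ c.φ (c.ψ z)‖ * 1 :=
          mul_le_mul_of_nonneg_left (norm_Pi_le M _) (norm_nonneg _)
      _ ≤ C := by rw [mul_one]; exact hC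
  exact mul_le_mul h1 h8 (norm_nonneg _) hε

theorem gSM1 : StmtSMO → StmtSMC → StmtSM1 := by
  intro hSMO hSMC N K r s M m A b B tau p b0 z0 Φ hr hrs hs hMan hbox hb0 hpf δ hδ
  obtain ⟨q1, hq1⟩ := cq_small r hr z0 hpf.pos
  have hs1 : (1 : WithTop ℕ∞) ≤ s := le_trans (by exact_mod_cast hr) hrs
  -- smoothness on `M`
  have hsm : ∀ q : ℕ, q1 ≤ q → ∀ al : ℝ, 1 ≤ al → ContDiffOn ℝ s (th Φ B tau b0 q r al) M := by
    intro q hq al hal
    obtain ⟨hqa, hqb⟩ := hq1 q hq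
    have h1 := hSMO K s M A b B tau p b0 z0 Φ q r hs hbox hb0 hpf hqa hqb
    have h2 : ContDiffOn ℝ s (fun x : E K => ((al, x) : ℝ × E K)) M :=
      (contDiff_const.prodMk contDiff_id).contDiffOn
    have h3 : MapsTo (fun x : E K => ((al, x) : ℝ × E K)) M (Ioi 0 ×ˢ M) := fun x hx =>
      ⟨show (0 : ℝ) < al by linarith, hx⟩
    have h4 := h1.comp h2 h3
    have e : (fun v : ℝ × E K => th Φ B tau b0 q r v.1 v.2) ∘
        (fun x : E K => ((al, x) : ℝ × E K)) = th Φ B tau b0 q r al := by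
      funext x
      rfl
    rwa [e] at h4
  suffices H : ∃ q0 : ℕ, ∀ q : ℕ, q0 ≤ q → ∀ al : ℝ, 1 ≤ al → al ≤ 2 → ∀ x ∈ M, x ∈ M →
      |th Φ B tau b0 q r al x| ≤ δ ∧
      ‖(fderivWithin ℝ (th Φ B tau b0 q r al) M x) ∘L (Pi M x)‖ ≤ δ by
    obtain ⟨q0, hq0⟩ := H
    exact ⟨q0, fun q hq al h1 h2 x hx => hq0 q hq al h1 h2 x hx hx⟩
  refine hMan.compact.induction_on (p := fun S => ∃ q0 : ℕ, ∀ q : ℕ, q0 ≤ q → ∀ al : ℝ, 1 ≤ al →
    al ≤ 2 → ∀ x ∈ S, x ∈ M → |th Φ B tau b0 q r al x| ≤ δ ∧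
      ‖(fderivWithin ℝ (th Φ B tau b0 q r al) M x) ∘L (Pi M x)‖ ≤ δ) ?_ ?_ ?_ ?_
  · exact ⟨0, fun q _ al _ _ x hx => absurd hx (notMem_empty x)⟩
  · rintro S S' hSS ⟨q0, hq0⟩
    exact ⟨q0, fun q hq al h1 h2 x hx => hq0 q hq al h1 h2 x (hSS hx)⟩
  · rintro S S' ⟨q0, hq0⟩ ⟨q2, hq2⟩
    refine ⟨max q0 q2, fun q hq al h1 h2 x hx hxM => ?_⟩
    rcases hx with hx | hx
    · exact hq0 q ((le_max_left _ _).trans hq) al h1 h2 x hx hxM
    · exact hq2 q ((le_max_right _ _).trans hq) al h1 h2 x hx hxM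
  · intro x hx
    obtain ⟨c, hcW, -⟩ := hMan.chart x hx
    have hzV : c.φ x ∈ c.V := c.mapsφ x ⟨hx, hcW⟩
    obtain ⟨ρ, hρ, hρV⟩ := Metric.isOpen_iff.1 c.openV _ hzV
    have hLV : Metric.closedBall (c.φ x) (ρ / 2) ⊆ c.V :=
      (Metric.closedBall_subset_ball (by linarith)).trans hρV
    have hLc : IsCompact (Metric.closedBall (c.φ x) (ρ / 2)) := isCompact_closedBall _ _
    -- bound of the derivative of `φ`
    have hcont : ContinuousOn (fun z => fderiv ℝ c.φ (c.ψ z)) c.V := by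
      have h1 : ContinuousOn (fderiv ℝ c.φ) c.W :=
        c.smoothφ.continuousOn_fderiv_of_isOpen c.openW (by simp)
      exact h1.comp c.smoothψ.continuousOn (fun z hz => (c.mapsψ z hz).2)
    obtain ⟨C0, hC0⟩ := hLc.exists_bound_of_continuousOn (hcont.mono hLV)
    obtain ⟨C, hC1, hCC⟩ : ∃ C : ℝ, 1 ≤ C ∧ C0 ≤ C := ⟨max 1 C0, le_max_left _ _, le_max_right _ _⟩
    have hC : 0 < C := by linarith
    have hε : 0 < δ / C := div_pos hδ hC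
    obtain ⟨q2, hq2⟩ := hSMC N K r s M A b B tau p b0 z0 Φ hr hrs hs hbox hb0 hpf Unit (fun _ => c)
      (fun _ => Metric.closedBall (c.φ x) (ρ / 2)) (fun _ => ⟨hLc, hLV⟩) (δ / C) hε
    refine ⟨M ∩ (c.W ∩ c.φ ⁻¹' Metric.ball (c.φ x) (ρ / 2)), ?_, max q1 q2, ?_⟩
    · refine inter_mem_nhdsWithin M ?_
      refine (c.smoothφ.continuousOn.isOpen_inter_preimage c.openW Metric.isOpen_ball).mem_nhds ?_
      exact ⟨hcW, Metric.mem_ball_self (by linarith)⟩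
    · rintro q hq al hal1 hal2 y ⟨hyM, hyW, hyφ⟩ -
      have hzL : c.φ y ∈ Metric.closedBall (c.φ x) (ρ / 2) := Metric.ball_subset_closedBall hyφ
      have hyr : c.ψ (c.φ y) = y := c.right y ⟨hyM, hyW⟩
      have hqa : q1 ≤ q := (le_max_left _ _).trans hq
      have hqb : q2 ≤ q := (le_max_right _ _).trans hq
      have hT : DifferentiableWithinAt ℝ (th Φ B tau b0 q r al) M (c.ψ (c.φ y)) := by
        rw [hyr]
        exact ((hsm q hqa al hal1).differentiableOn (fun h => by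
          rw [h] at hs1
          exact absurd hs1 (by simp))) y hyM
      have e0 := hq2 q hqb al hal1 hal2 () 0 (Nat.zero_le _) (c.φ y) hzL
      have e1 := hq2 q hqb al hal1 hal2 () 1 hr (c.φ y) hzL
      have e2 := local_bound c (th Φ B tau b0 q r al) (c.φ y) (hLV hzL) C (δ / C)
        ((hC0 _ hzL).trans hCC) hε.le hT e1
      rw [norm_iteratedFDeriv_zero, Real.norm_eq_abs] at e0
      rw [hyr] at e0 e2
      refine ⟨e0.trans ?_, e2.trans (le_of_eq (div_mul_cancel₀ _ hC.ne'))⟩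
      rw [div_le_iff₀ hC]
      nlinarith

end Pool.Agent.Helper25.TOF
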