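import Pool.Agent.Helper56.TOF.Goals2

/-!
# Project TOF (MP_f32c9c_an), packet TRL: sets with short intersections with all lines of direction `e`
(helper25)
-/

set_option autoImplicit false

open Set Filter Topology MeasureTheory

namespace Pool.Agent.Helper25.TOF

open Pool.Agent.Helper56.RZ Pool.Agent.Helper30.CIR Pool.Agent.Helper56.TOF

theorem gTRL : StmtTRL := by
  intro N e z0 ρ he
  obtain ⟨V, hV0, hV⟩ : ∃ V : ℝ, 0 < V ∧
      volume (Metric.closedBall z0 (ρ + ‖e‖)) ≤ ENNReal.ofReal V := by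
    refine ⟨(volume (Metric.closedBall z0 (ρ + ‖e‖))).toReal + 1, by positivity, ?_⟩
    have h1 : volume (Metric.closedBall z0 (ρ + ‖e‖)) ≠ ⊤ := measure_closedBall_lt_top.ne
    conv_lhs => rw [← ENNReal.ofReal_toReal h1]
    exact ENNReal.ofReal_le_ofReal (by linarith)
  refine ⟨2 * V, by positivity, ?_⟩
  intro T h hT hTb hh hline
  obtain ⟨n, hn⟩ : ∃ n : ℕ, n = ⌊1 / (2 * h)⌋₊ := ⟨_, rfl⟩
  have hn1 : (n : ℝ) ≤ 1 / (2 * h) := by
    rw [hn]
    exact Nat.floor_le (by positivity)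
  have hn2 : 1 / (2 * h) < (n : ℝ) + 1 := by
    rw [hn]
    exact Nat.lt_floor_add_one _
  -- the translates
  obtain ⟨S, hS⟩ : ∃ S : ℕ → Set (E N), ∀ k,
      S k = (fun x : E N => x + (-(2 * (k : ℝ) * h)) • e) ⁻¹' T := ⟨_, fun _ => rfl⟩
  have hSm : ∀ k, MeasurableSet (S k) := fun k => by
    rw [hS]
    exact (measurable_id.add_const _) hT
  have hSv : ∀ k, volume (S k) = volume T := fun k => by
    rw [hS]
    exact measure_preimage_add_right volume _ T
  have hSd : ∀ k l : ℕ, k ≠ l → Disjoint (S k) (S l) := by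
    intro k l hkl
    rw [Set.disjoint_left]
    intro x hx hy
    rw [hS] at hx hy
    have hx' : x + (-(2 * (k : ℝ) * h)) • e ∈ T := hx
    have hy' : x + (-(2 * (l : ℝ) * h)) • e ∈ T := hy
    have e1 : x + (-(2 * (l : ℝ) * h)) • e =
        (x + (-(2 * (k : ℝ) * h)) • e) + (2 * ((k : ℝ) - l) * h) • e := by
      rw [add_assoc, ← add_smul]
      congr 2
      ring
    rw [e1] at hy'
    have h3 := hline _ hx' _ hy'
    have h4 : (1 : ℝ) ≤ |(k : ℝ) - l| := by
      have h5 : (1 : ℤ) ≤ |(k : ℤ) - l| := Int.one_le_abs (by omega)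
      have h6 : ((1 : ℤ) : ℝ) ≤ ((|(k : ℤ) - l| : ℤ) : ℝ) := by exact_mod_cast h5
      simpa using h6
    rw [abs_mul, abs_mul, abs_of_pos hh, abs_of_pos (by norm_num : (0 : ℝ) < 2)] at h3
    nlinarith
  have hSb : ∀ k ∈ Finset.range (n + 1), S k ⊆ Metric.closedBall z0 (ρ + ‖e‖) := by
    intro k hk x hx
    rw [hS] at hx
    have hx' : x + (-(2 * (k : ℝ) * h)) • e ∈ T := hx
    have h3 := hTb hx'
    rw [Metric.mem_closedBall, dist_eq_norm] at h3 ⊢
    have hk1 : (k : ℝ) ≤ n := by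
      have : k ≤ n := by
        have := Finset.mem_range.1 hk
        omega
      exact_mod_cast this
    have hk2 : 2 * (k : ℝ) * h ≤ 1 := by
      have h4 : (k : ℝ) ≤ 1 / (2 * h) := hk1.trans hn1
      rw [le_div_iff₀ (by positivity)] at h4
      linarith
    have hk3 : 0 ≤ 2 * (k : ℝ) * h := by positivity
    have e2 : x - z0 = (x + (-(2 * (k : ℝ) * h)) • e - z0) + (2 * (k : ℝ) * h) • e := by
      rw [neg_smul]
      abel
    rw [e2]
    refine (norm_add_le _ _).trans ?_
    rw [norm_smul, Real.norm_eq_abs, abs_of_nonneg hk3]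
    have h5 : 2 * (k : ℝ) * h * ‖e‖ ≤ 1 * ‖e‖ := mul_le_mul_of_nonneg_right hk2 (norm_nonneg _)
    linarith
  have h6 : ((n + 1 : ℕ) : ENNReal) * volume T ≤ ENNReal.ofReal V := by
    have h7 : volume (⋃ k ∈ Finset.range (n + 1), S k) =
        ∑ k ∈ Finset.range (n + 1), volume (S k) :=
      measure_biUnion_finset (fun k _ l _ hkl => hSd k l hkl) (fun k _ => hSm k)
    have h8 : ∑ k ∈ Finset.range (n + 1), volume (S k) = ((n + 1 : ℕ) : ENNReal) * volume T := by
      rw [Finset.sum_congr rfl (fun k _ => hSv k), Finset.sum_const, Finset.card_range,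
        nsmul_eq_mul]
    rw [← h8, ← h7]
    refine le_trans (measure_mono ?_) hV
    exact Set.iUnion₂_subset hSb
  have h9 : ENNReal.ofReal (1 / (2 * h)) * volume T ≤ ENNReal.ofReal V := by
    refine le_trans ?_ h6
    gcongr
    rw [← ENNReal.ofReal_natCast]
    refine ENNReal.ofReal_le_ofReal ?_
    push_cast
    exact hn2.le
  have h10 : volume T = ENNReal.ofReal (2 * h) * (ENNReal.ofReal (1 / (2 * h)) * volume T) := by
    rw [← mul_assoc, ← ENNReal.ofReal_mul (by positivity),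
      mul_one_div_cancel (by positivity : (2 * h : ℝ) ≠ 0), ENNReal.ofReal_one, one_mul]
  rw [h10]
  calc ENNReal.ofReal (2 * h) * (ENNReal.ofReal (1 / (2 * h)) * volume T)
      ≤ ENNReal.ofReal (2 * h) * ENNReal.ofReal V := by gcongr
    _ = ENNReal.ofReal (2 * h * V) := (ENNReal.ofReal_mul (by positivity)).symm
    _ = ENNReal.ofReal (2 * V * h) := by
      congr 1
      ring

end Pool.Agent.Helper25.TOF
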